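import Mathlib
import Pool.Agent.Results.MP_824cb5_co.TwoElements

/-!
# The failing triples `(n, 2, h)` with `n ≥ 4h`

For `m = 2` and `n ≥ 4h` the bound `min(n, c(h,2)) = 4h` is not attained iff `n < (h+1)^2`, or
`h` is odd, `n` is even and `n < (h+1)(h+2)`.
-/

namespace Pool.Agent.Results.MP_c862d8_co.TwoElementSets

open Pool.Agent.Results.MP_824cb5_co.TwoElements

/-- The `h`-fold signed sumset of the set listed by `a`. -/
def hpm {n m : ℕ} (h : ℕ) (a : Fin m → ZMod n) : Set (ZMod n) :=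
  {x | ∃ l : Fin m → ℤ, ∑ i, |l i| = (h : ℤ) ∧ x = ∑ i, l i • a i}

/-- `ν_±(ℤ_n, m, h)`: the largest size of `h_± A` over the `m`-element subsets `A` of `ℤ_n`. -/
noncomputable def nu (n m h : ℕ) : ℕ :=
  sSup {k | ∃ a : Fin m → ZMod n, Function.Injective a ∧ k = (hpm h a).ncard}

/-- `c(h,m)`. -/
def c (h m : ℕ) : ℕ := ∑ i ∈ Finset.Icc 1 (min m h), 2 ^ i * m.choose i * (h - 1).choose (i - 1)

lemma c_two {h : ℕ} (hh : 2 ≤ h) : c h 2 = 4 * h := by
  unfold c
  rw [min_eq_left hh]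
  have : Finset.Icc 1 2 = {1, 2} := by decide
  rw [this, Finset.sum_pair (by norm_num)]
  simp
  omega

/-- The `4h` coefficient vectors. -/
def G (h : ℕ) (x : Fin h × Fin 4) : ℤ × ℤ :=
  if x.2 = 0 then ((h : ℤ) - (x.1 : ℕ), ((x.1 : ℕ) : ℤ))
  else if x.2 = 1 then (-((x.1 : ℕ) : ℤ), (h : ℤ) - (x.1 : ℕ))
  else if x.2 = 2 then (-((h : ℤ) - (x.1 : ℕ)), -((x.1 : ℕ) : ℤ))
  else (((x.1 : ℕ) : ℤ), -((h : ℤ) - (x.1 : ℕ)))

lemma G_norm (h : ℕ) (x : Fin h × Fin 4) : |(G h x).1| + |(G h x).2| = h := by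
  obtain ⟨i, k⟩ := x
  have hi := i.2
  have a1 : |(h : ℤ) - (i : ℕ)| = (h : ℤ) - (i : ℕ) := abs_of_nonneg (by omega)
  have a2 : |((i : ℕ) : ℤ)| = ((i : ℕ) : ℤ) := abs_of_nonneg (by omega)
  fin_cases k
  · simp only [G]
    simp [a1]
  · simp only [G]
    simp [a1]
  · simp only [G]
    simp [abs_sub_comm, a1]
  · simp only [G]
    simp [abs_sub_comm, a1]

lemma G_inj (h : ℕ) : Function.Injective (G h) := by
  rintro ⟨i, k⟩ ⟨j, l⟩ he
  have hi := i.2
  have hj := j.2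
  fin_cases k <;> fin_cases l <;> simp [G, Prod.ext_iff] at he ⊢ <;> omega

lemma G_surj {h : ℕ} (hh : 1 ≤ h) (p q : ℤ) (hpq : |p| + |q| = h) : ∃ x, G h x = (p, q) := by
  by_cases h1 : 0 < p ∧ 0 ≤ q
  · rw [abs_of_pos h1.1, abs_of_nonneg h1.2] at hpq
    refine ⟨(⟨q.toNat, by omega⟩, 0), ?_⟩
    simp only [G]
    ext <;> simp <;> omega
  by_cases h2 : p ≤ 0 ∧ 0 < q
  · rw [abs_of_nonpos h2.1, abs_of_pos h2.2] at hpq
    refine ⟨(⟨(-p).toNat, by omega⟩, 1), ?_⟩
    simp only [G]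
    ext <;> simp <;> omega
  by_cases h3 : p < 0 ∧ q ≤ 0
  · rw [abs_of_neg h3.1, abs_of_nonpos h3.2] at hpq
    refine ⟨(⟨(-q).toNat, by omega⟩, 2), ?_⟩
    simp only [G]
    ext <;> simp <;> omega
  by_cases h4 : 0 ≤ p ∧ q < 0
  · rw [abs_of_nonneg h4.1, abs_of_neg h4.2] at hpq
    refine ⟨(⟨p.toNat, by omega⟩, 3), ?_⟩
    simp only [G]
    ext <;> simp <;> omega
  · exfalso
    have hp : p = 0 := by omega
    have hq : q = 0 := by omega
    rw [hp, hq] at hpq
    simp at hpq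
    omega

/-- The value at the coefficient vector number `x`. -/
def val {n : ℕ} (h : ℕ) (a : Fin 2 → ZMod n) (x : Fin h × Fin 4) : ZMod n :=
  (G h x).1 • a 0 + (G h x).2 • a 1

lemma hpm_eq {n h : ℕ} (hh : 1 ≤ h) (a : Fin 2 → ZMod n) : hpm h a = Set.range (val h a) := by
  ext z
  constructor
  · rintro ⟨l, hl, rfl⟩
    rw [Fin.sum_univ_two] at hl
    obtain ⟨x, hx⟩ := G_surj hh _ _ hl
    refine ⟨x, ?_⟩
    simp only [val, hx, Fin.sum_univ_two]
  · rintro ⟨x, rfl⟩
    refine ⟨![(G h x).1, (G h x).2], ?_, ?_⟩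
    · simpa [Fin.sum_univ_two] using G_norm h x
    · simp [Fin.sum_univ_two, val]

lemma ncard_eq {n h : ℕ} (hh : 1 ≤ h) (a : Fin 2 → ZMod n) :
    (hpm h a).ncard = (Finset.univ.image (val h a)).card := by
  classical
  rw [hpm_eq hh, ← Set.ncard_coe_finset, Finset.coe_image, Finset.coe_univ, Set.image_univ]

lemma ncard_le {n h : ℕ} (hh : 1 ≤ h) (a : Fin 2 → ZMod n) : (hpm h a).ncard ≤ 4 * h := by
  rw [ncard_eq hh]
  refine Finset.card_image_le.trans ?_
  rw [Finset.card_univ, Fintype.card_prod, Fintype.card_fin, Fintype.card_fin, mul_comm]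

lemma full_iff {n h : ℕ} (hh : 1 ≤ h) (a : Fin 2 → ZMod n) (hinj : Function.Injective a) :
    (hpm h a).ncard = 4 * h ↔ IsBh h 2 a := by
  have hc : (4 * h) = (Finset.univ : Finset (Fin h × Fin 4)).card := by
    rw [Finset.card_univ, Fintype.card_prod, Fintype.card_fin, Fintype.card_fin, mul_comm]
  rw [ncard_eq hh, hc, Finset.card_image_iff]
  constructor
  · intro hI
    refine ⟨hinj, ?_⟩
    intro l l' hl hl' he
    rw [Fin.sum_univ_two] at hl hl'
    obtain ⟨x, hx⟩ := G_surj hh _ _ hl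
    obtain ⟨x', hx'⟩ := G_surj hh _ _ hl'
    rw [Fin.sum_univ_two, Fin.sum_univ_two] at he
    have : x = x' := by
      apply hI (Finset.mem_coe.2 (Finset.mem_univ _)) (Finset.mem_coe.2 (Finset.mem_univ _))
      simp only [val, hx, hx']
      exact he
    rw [this, hx', Prod.mk.injEq] at hx
    funext i
    fin_cases i
    · exact hx.1.symm
    · exact hx.2.symm
  · rintro ⟨-, hI⟩ x - x' - he
    apply G_inj h
    have := hI ![(G h x).1, (G h x).2] ![(G h x').1, (G h x').2]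
      (by simpa [Fin.sum_univ_two] using G_norm h x)
      (by simpa [Fin.sum_univ_two] using G_norm h x')
      (by simpa [Fin.sum_univ_two, val] using he)
    have e0 := congrFun this 0
    have e1 := congrFun this 1
    simp at e0 e1
    exact Prod.ext e0 e1

lemma nu_lt_iff {n h : ℕ} (hh : 1 ≤ h) : nu n 2 h < 4 * h ↔ ¬ HasBh (ZMod n) h 2 := by
  have hb : BddAbove {k | ∃ a : Fin 2 → ZMod n, Function.Injective a ∧ k = (hpm h a).ncard} := by
    refine ⟨4 * h, ?_⟩
    rintro k ⟨a, -, rfl⟩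
    exact ncard_le hh a
  constructor
  · rintro hlt ⟨a, ha⟩
    have : 4 * h ≤ nu n 2 h := le_csSup hb ⟨a, ha.1, ((full_iff hh a ha.1).2 ha).symm⟩
    omega
  · intro hno
    by_cases hne : {k | ∃ a : Fin 2 → ZMod n, Function.Injective a ∧ k = (hpm h a).ncard}.Nonempty
    · obtain ⟨a, ha, hk⟩ := Nat.sSup_mem hne hb
      have h1 : nu n 2 h = (hpm h a).ncard := hk
      have h2 := ncard_le hh a
      have h3 : (hpm h a).ncard ≠ 4 * h := fun h => hno ⟨a, (full_iff hh a ha).1 h⟩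
      omega
    · rw [Set.not_nonempty_iff_eq_empty] at hne
      have : nu n 2 h = 0 := by
        unfold nu
        rw [hne]
        simp
      omega

/-- For `m = 2` and `n ≥ 4h` (where `min(n, c(h,2)) = 4h`), the bound fails iff `n < (h+1)^2`, or
`h` is odd, `n` is even and `n < (h+1)(h+2)`. -/
theorem result (n h : ℕ) (hh : 2 ≤ h) (hn : 4 * h ≤ n) :
    nu n 2 h < min n (c h 2) ↔
      n < (h + 1) ^ 2 ∨ (Odd h ∧ Even n ∧ n < (h + 1) * (h + 2)) := by
  rw [c_two hh, min_eq_right hn, nu_lt_iff (by omega)]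
  have R := Pool.Agent.Results.MP_824cb5_co.TwoElements.result
  rcases Nat.even_or_odd h with he | ho
  · rw [R.2.1 n h (by omega) (by omega) (Or.inl he), not_le]
    constructor
    · exact Or.inl
    · rintro (h1 | ⟨h1, -⟩)
      · exact h1
      · exact absurd he (Nat.not_even_iff_odd.2 h1)
  · rcases Nat.even_or_odd n with hne | hno
    · rw [R.2.2 n h (by omega) ho hne, not_le]
      constructor
      · intro h1
        exact Or.inr ⟨ho, hne, h1⟩
      · rintro (h1 | ⟨-, -, h1⟩)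
        · nlinarith
        · exact h1
    · rw [R.2.1 n h (by omega) (by omega) (Or.inr hno), not_le]
      constructor
      · exact Or.inl
      · rintro (h1 | ⟨-, h1, -⟩)
        · exact h1
        · exact absurd h1 (Nat.not_even_iff_odd.2 hno)

end Pool.Agent.Results.MP_c862d8_co.TwoElementSets
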