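import Mathlib

set_option autoImplicit false

namespace Pool.Agent.Results.MP_c862d8_co.TwoFoldFamily

open Finset

/-- The `h`-fold signed sumset of a finite subset `A` of `ℤ/n`. -/
def hpm (n h : ℕ) (A : Finset (ZMod n)) : Set (ZMod n) :=
  {x | ∃ l : ZMod n → ℤ, ∑ a ∈ A, |l a| = (h : ℤ) ∧ x = ∑ a ∈ A, l a • a}

/-- `ν_±(ℤ/n, m, h)`: the largest size of `h_± A` over the `m`-element subsets `A` of `ℤ/n`. -/
noncomputable def nu (n m h : ℕ) : ℕ :=
  sSup {k | ∃ A : Finset (ZMod n), A.card = m ∧ k = (hpm n h A).ncard}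

/-- `c(h,m) = ∑_{i=1}^{min(m,h)} 2^i C(m,i) C(h-1,i-1)`. -/
def c (h m : ℕ) : ℕ :=
  ∑ i ∈ Finset.Icc 1 (min m h), 2 ^ i * m.choose i * (h - 1).choose (i - 1)

theorem c_two (m : ℕ) (hm : 2 ≤ m) : c 2 m = 2 * m ^ 2 := by
  unfold c
  rw [min_eq_right hm]
  have : Finset.Icc 1 2 = {1, 2} := by decide
  rw [this, Finset.sum_insert (by simp), Finset.sum_singleton]
  simp only [Nat.choose_one_right, Nat.choose_two_right]
  obtain ⟨k, rfl⟩ : ∃ k, m = k + 2 := ⟨m - 2, by omega⟩
  have h2 : (k + 2) * (k + 2 - 1) = 2 * ((k + 2) * (k + 2 - 1) / 2) := by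
    have : 2 ∣ (k + 2) * (k + 2 - 1) := by
      have := Nat.even_mul_pred_self (k + 2)
      exact this.two_dvd
    omega
  norm_num
  have h3 : (k + 2) * (k + 2 - 1) = (k + 2) * (k + 1) := by simp
  rw [h3] at h2
  have h4 : 4 * ((k + 2) * (k + 1) / 2) = 2 * ((k + 2) * (k + 1)) := by omega
  rw [h4]; ring

/-- The number of integer vectors of length `m` with `ℓ¹`-norm `h`, by its recursion. -/
def w : ℕ → ℕ → ℕ
  | 0, 0 => 1
  | 0, _ + 1 => 0
  | m + 1, h => w m h + 2 * ∑ r ∈ Finset.range h, w m r

theorem w_zero (m : ℕ) : w m 0 = 1 := by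
  induction m with
  | zero => rfl
  | succ m ih => simp [w, ih]

theorem c_range (h m : ℕ) :
    c (h + 1) m = ∑ j ∈ Finset.range (h + 1), 2 ^ (j + 1) * m.choose (j + 1) * h.choose j := by
  unfold c
  have h1 : ∑ i ∈ Finset.Icc 1 (min m (h + 1)), 2 ^ i * m.choose i * (h + 1 - 1).choose (i - 1)
      = ∑ i ∈ Finset.Icc 1 (h + 1), 2 ^ i * m.choose i * (h + 1 - 1).choose (i - 1) := by
    apply Finset.sum_subset
    · intro i hi
      rw [Finset.mem_Icc] at hi ⊢
      exact ⟨hi.1, le_trans hi.2 (min_le_right _ _)⟩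
    · intro i hi hni
      rw [Finset.mem_Icc] at hi hni
      have : m < i := by
        by_contra hc
        exact hni ⟨hi.1, le_min (by omega) hi.2⟩
      rw [Nat.choose_eq_zero_of_lt this]; simp
  rw [h1, Finset.range_eq_Ico, ← Finset.Ico_add_one_right_eq_Icc,
    Finset.sum_Ico_eq_sum_range, Finset.range_eq_Ico]
  apply Finset.sum_congr rfl
  intro j _
  have e1 : 1 + j = j + 1 := by ring
  rw [e1]
  simp

theorem c_rec (h m : ℕ) :
    c (h + 2) (m + 1) = c (h + 2) m + c (h + 1) m + c (h + 1) (m + 1) := by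
  rw [c_range (h + 1) (m + 1), c_range (h + 1) m, c_range h m, c_range h (m + 1)]
  have e1 : ∀ N H : ℕ, ∑ j ∈ Finset.range N, 2 ^ (j + 1) * (m + 1).choose (j + 1) * H.choose j
      = ∑ j ∈ Finset.range N, 2 ^ (j + 1) * m.choose (j + 1) * H.choose j
        + ∑ j ∈ Finset.range N, 2 ^ (j + 1) * m.choose j * H.choose j := by
    intro N H
    rw [← Finset.sum_add_distrib]
    apply Finset.sum_congr rfl
    intro j _
    rw [Nat.choose_succ_succ]; ring
  rw [e1, e1]
  have e2 : ∑ j ∈ Finset.range (h + 1 + 1), 2 ^ (j + 1) * m.choose j * (h + 1).choose j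
      = 2 * ∑ j ∈ Finset.range (h + 1), 2 ^ (j + 1) * m.choose (j + 1) * h.choose j
        + ∑ j ∈ Finset.range (h + 1), 2 ^ (j + 1) * m.choose j * h.choose j := by
    rw [Finset.sum_range_succ' (n := h + 1)]
    have e3 : ∑ j ∈ Finset.range (h + 1), 2 ^ (j + 1) * m.choose j * h.choose j
        = ∑ j ∈ Finset.range (h + 1), 2 ^ (j + 1 + 1) * m.choose (j + 1) * h.choose (j + 1)
          + 2 ^ (0 + 1) * m.choose 0 * (h + 1).choose 0 := by
      have : ∑ j ∈ Finset.range (h + 1 + 1), 2 ^ (j + 1) * m.choose j * h.choose j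
          = ∑ j ∈ Finset.range (h + 1), 2 ^ (j + 1) * m.choose j * h.choose j := by
        rw [Finset.sum_range_succ, Nat.choose_succ_self]; simp
      rw [← this, Finset.sum_range_succ' (n := h + 1)]
      simp
    rw [e3, ← add_assoc, Finset.mul_sum, ← Finset.sum_add_distrib]
    congr 1
    apply Finset.sum_congr rfl
    intro j _
    rw [Nat.choose_succ_succ h j]; ring
  rw [e2]; ring

theorem c_one (m : ℕ) : c 1 m = 2 * m := by
  have := c_range 0 m
  simpa using this

theorem c_eq_w (m : ℕ) : ∀ h : ℕ, c (h + 1) m = w m (h + 1) := by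
  induction m with
  | zero => intro h; rw [c_range]; simp [w]
  | succ m ih =>
    intro h
    induction h with
    | zero =>
      rw [c_one]
      have h1 := ih 0
      rw [c_one] at h1
      simp only [w, Finset.sum_range_one, w_zero, zero_add] at h1 ⊢
      omega
    | succ h ihh =>
      rw [c_rec, ih (h + 1), ih h, ihh]
      simp only [w, Finset.sum_range_succ]
      ring

/-- A vector of integers with `∑ |l a| = 2` is `±2` at one place or `±1` at two places. -/
theorem shape {n : ℕ} {A : Finset (ZMod n)} {l : ZMod n → ℤ}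
    (hl : ∑ a ∈ A, |l a| = 2) :
    (∃ a ∈ A, (l a = 2 ∨ l a = -2) ∧ ∀ b ∈ A, b ≠ a → l b = 0) ∨
    (∃ a ∈ A, ∃ b ∈ A, a ≠ b ∧ (l a = 1 ∨ l a = -1) ∧ (l b = 1 ∨ l b = -1) ∧
      ∀ x ∈ A, x ≠ a → x ≠ b → l x = 0) := by
  classical
  have hex : ∃ a ∈ A, l a ≠ 0 := by
    by_contra h
    push Not at h
    have : ∑ a ∈ A, |l a| = 0 := Finset.sum_eq_zero (fun a ha => by rw [h a ha]; simp)
    omega
  obtain ⟨a, ha, hla⟩ := hex
  have h1 := Finset.add_sum_erase A (fun a => |l a|) ha
  have hpos : 0 < |l a| := abs_pos.mpr hla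
  have hnn : 0 ≤ ∑ x ∈ A.erase a, |l x| := Finset.sum_nonneg (fun _ _ => abs_nonneg _)
  have hcase : |l a| = 2 ∨ |l a| = 1 := by omega
  rcases hcase with h2 | h2
  · left
    refine ⟨a, ha, ?_, ?_⟩
    · rcases abs_choice (l a) with h | h <;> omega
    · intro b hb hba
      have h0 : ∑ x ∈ A.erase a, |l x| = 0 := by omega
      have := (Finset.sum_eq_zero_iff_of_nonneg (fun x _ => abs_nonneg (l x))).mp h0 b
        (Finset.mem_erase.mpr ⟨hba, hb⟩)
      exact abs_eq_zero.mp this
  · right
    have h3 : ∑ x ∈ A.erase a, |l x| = 1 := by omega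
    have hex2 : ∃ b ∈ A.erase a, l b ≠ 0 := by
      by_contra h
      push Not at h
      have : ∑ x ∈ A.erase a, |l x| = 0 :=
        Finset.sum_eq_zero (fun x hx => by rw [h x hx]; simp)
      omega
    obtain ⟨b, hb, hlb⟩ := hex2
    have h4 := Finset.add_sum_erase (A.erase a) (fun a => |l a|) hb
    have hpos2 : 0 < |l b| := abs_pos.mpr hlb
    have hnn2 : 0 ≤ ∑ x ∈ (A.erase a).erase b, |l x| :=
      Finset.sum_nonneg (fun _ _ => abs_nonneg _)
    have h5 : |l b| = 1 := by omega
    have h6 : ∑ x ∈ (A.erase a).erase b, |l x| = 0 := by omega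
    refine ⟨a, ha, b, (Finset.mem_erase.mp hb).2, (Finset.mem_erase.mp hb).1.symm, ?_, ?_, ?_⟩
    · rcases abs_choice (l a) with h | h <;> omega
    · rcases abs_choice (l b) with h | h <;> omega
    · intro x hx hxa hxb
      have := (Finset.sum_eq_zero_iff_of_nonneg (fun x _ => abs_nonneg (l x))).mp h6 x
        (Finset.mem_erase.mpr ⟨hxb, Finset.mem_erase.mpr ⟨hxa, hx⟩⟩)
      exact abs_eq_zero.mp this

/-- The sum attached to such a vector. -/
theorem two_sum {n : ℕ} {A : Finset (ZMod n)} {x : ZMod n} (hx : x ∈ hpm n 2 A) :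
    (∃ a ∈ A, x = a + a ∨ x = -a + -a) ∨
    (∃ a ∈ A, ∃ b ∈ A, a ≠ b ∧ (x = a + b ∨ x = a + -b ∨ x = -a + b ∨ x = -a + -b)) := by
  classical
  obtain ⟨l, hl, rfl⟩ := hx
  rcases shape (by exact_mod_cast hl) with ⟨a, ha, hla, h0⟩ | ⟨a, ha, b, hb, hab, hla, hlb, h0⟩
  · left
    refine ⟨a, ha, ?_⟩
    have : ∑ x ∈ A, l x • x = l a • a := by
      apply Finset.sum_eq_single a
      · intro b hb hba; rw [h0 b hb hba]; simp
      · intro h; exact absurd ha h
    rw [this]
    rcases hla with h | h
    · left; rw [h]; rw [two_smul]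
    · right; rw [h]; rw [neg_smul, two_smul]; ring
  · right
    refine ⟨a, ha, b, hb, hab, ?_⟩
    have h1 : ∑ x ∈ A, l x • x = l a • a + l b • b := by
      have hsub : ({a, b} : Finset (ZMod n)) ⊆ A := by
        intro y hy
        simp only [Finset.mem_insert, Finset.mem_singleton] at hy
        rcases hy with rfl | rfl
        · exact ha
        · exact hb
      rw [← Finset.sum_subset hsub, Finset.sum_pair hab]
      intro y hy hny
      simp only [Finset.mem_insert, Finset.mem_singleton, not_or] at hny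
      rw [h0 y hy hny.1 hny.2]; simp
    rw [h1]
    rcases hla with h | h <;> rcases hlb with h' | h' <;> rw [h, h'] <;> simp

/-- The key estimate: if `0` and everything else is in `D + D` and `D × D` minus a set `E`
receives the injection, then `2 (n - 1) ≤ |D|^2 - |E|`. -/
theorem key {n : ℕ} [NeZero n] (D : Finset (ZMod n)) (hD : ∀ x ∈ D, -x ∈ D)
    (hall : ∀ z : ZMod n, z ≠ 0 → ∃ x ∈ D, ∃ y ∈ D, x + y = z)
    (T : Finset (ZMod n × ZMod n))
    (hT : ∀ x ∈ D, ∀ y ∈ D, ¬ (x = y ∧ x + x = 0) → (x, y) ∈ T) :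
    2 * (n - 1) ≤ T.card := by
  classical
  choose! f hf g hg hfg using hall
  let F : ZMod n × Bool → ZMod n × ZMod n := fun p =>
    if p.2 then (f p.1, g p.1) else (if f p.1 = g p.1 then (f p.1, - f p.1) else (g p.1, f p.1))
  let U : Finset (ZMod n × Bool) := (Finset.univ.filter (fun z : ZMod n => z ≠ 0)) ×ˢ Finset.univ
  have hU : U.card = 2 * (n - 1) := by
    rw [Finset.card_product]
    have : (Finset.univ.filter (fun z : ZMod n => z ≠ 0)).card = n - 1 := by
      rw [Finset.filter_ne' Finset.univ (0 : ZMod n), Finset.card_erase_of_mem (Finset.mem_univ _),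
        Finset.card_univ, ZMod.card]
    rw [this]
    simp [mul_comm]
  rw [← hU]
  apply Finset.card_le_card_of_injOn F
  · rintro ⟨z, t⟩ hz
    have hz0 : z ≠ 0 := by
      have := (Finset.mem_product.mp hz).1
      exact (Finset.mem_filter.mp this).2
    simp only [Finset.mem_coe]
    have hne : f z = g z → f z + f z ≠ 0 := fun h h0 => hz0 (by rw [← hfg z hz0, ← h, h0])
    cases t
    · simp only [F, Bool.false_eq_true, if_false]
      split_ifs with h
      · apply hT _ (hf z hz0) _ (hD _ (hf z hz0))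
        rintro ⟨_, h2⟩
        exact hne h h2
      · apply hT _ (hg z hz0) _ (hf z hz0)
        rintro ⟨h1, _⟩
        exact h h1.symm
    · simp only [F, if_true]
      apply hT _ (hf z hz0) _ (hg z hz0)
      rintro ⟨h1, h2⟩
      exact hne h1 h2
  · rintro ⟨z, t⟩ hz ⟨w, s⟩ hw h
    have hz0 : z ≠ 0 := by
      have := (Finset.mem_product.mp hz).1
      exact (Finset.mem_filter.mp this).2
    have hw0 : w ≠ 0 := by
      have := (Finset.mem_product.mp hw).1
      exact (Finset.mem_filter.mp this).2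
    have ez := hfg z hz0
    have ew := hfg w hw0
    cases t <;> cases s
    · simp only [F, Bool.false_eq_true, if_false] at h
      split_ifs at h with h1 h2 h2
      · have e1 : f z = f w := congrArg Prod.fst h
        have : z = w := by rw [← ez, ← ew, ← h1, ← h2, e1]
        rw [this]
      · exfalso
        have e1 : f z = g w := congrArg Prod.fst h
        have e2 : - f z = f w := congrArg Prod.snd h
        apply hw0; rw [← ew, ← e1, ← e2]; ring
      · exfalso
        have e1 : g z = f w := congrArg Prod.fst h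
        have e2 : f z = - f w := congrArg Prod.snd h
        apply hz0; rw [← ez, e1, e2]; ring
      · have e1 : g z = g w := congrArg Prod.fst h
        have e2 : f z = f w := congrArg Prod.snd h
        have : z = w := by rw [← ez, ← ew, e1, e2]
        rw [this]
    · exfalso
      simp only [F, Bool.false_eq_true, if_false, if_true] at h
      split_ifs at h with h1
      · have e1 : f z = f w := congrArg Prod.fst h
        have e2 : - f z = g w := congrArg Prod.snd h
        apply hw0; rw [← ew, ← e1, ← e2]; ring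
      · have e1 : g z = f w := congrArg Prod.fst h
        have e2 : f z = g w := congrArg Prod.snd h
        have hzw : z = w := by rw [← ez, ← ew, e1, e2]; ring
        subst hzw
        exact h1 (by rw [e1])
    · exfalso
      simp only [F, Bool.false_eq_true, if_false, if_true] at h
      split_ifs at h with h1
      · have e1 : f z = f w := congrArg Prod.fst h
        have e2 : g z = - f w := congrArg Prod.snd h
        apply hz0; rw [← ez, e1, e2]; ring
      · have e1 : f z = g w := congrArg Prod.fst h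
        have e2 : g z = f w := congrArg Prod.snd h
        have hzw : z = w := by rw [← ez, ← ew, e1, e2]; ring
        subst hzw
        exact h1 e1
    · simp only [F, if_true] at h
      have e1 : f z = f w := congrArg Prod.fst h
      have e2 : g z = g w := congrArg Prod.snd h
      have : z = w := by rw [← ez, ← ew, e1, e2]
      rw [this]

/-- If `n ≥ 2m²-2m+2` then `2_± A` is not the whole group. -/
theorem not_all {n m : ℕ} (hm : 2 ≤ m) (hn : 2 * m ^ 2 - 2 * m + 2 ≤ n)
    (A : Finset (ZMod n)) (hA : A.card = m) : hpm n 2 A ≠ Set.univ := by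
  classical
  intro hfull
  have hnpos : 0 < n := by omega
  haveI : NeZero n := ⟨by omega⟩
  set D : Finset (ZMod n) := A ∪ A.image (fun x => -x) with hDdef
  have hDneg : ∀ x ∈ D, -x ∈ D := by
    intro x hx
    rw [hDdef, Finset.mem_union, Finset.mem_image] at hx ⊢
    rcases hx with h | ⟨y, hy, rfl⟩
    · right; exact ⟨x, h, rfl⟩
    · left; rwa [neg_neg]
  have hAD : ∀ x ∈ A, x ∈ D := fun x hx => Finset.mem_union_left _ hx
  have hAD' : ∀ x ∈ A, -x ∈ D := fun x hx => hDneg x (hAD x hx)
  have hall : ∀ z : ZMod n, z ≠ 0 → ∃ x ∈ D, ∃ y ∈ D, x + y = z := by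
    intro z _
    have hz : z ∈ hpm n 2 A := by rw [hfull]; trivial
    rcases two_sum hz with ⟨a, ha, h | h⟩ | ⟨a, ha, b, hb, _, h | h | h | h⟩
    · exact ⟨a, hAD a ha, a, hAD a ha, h.symm⟩
    · exact ⟨-a, hAD' a ha, -a, hAD' a ha, h.symm⟩
    · exact ⟨a, hAD a ha, b, hAD b hb, h.symm⟩
    · exact ⟨a, hAD a ha, -b, hAD' b hb, h.symm⟩
    · exact ⟨-a, hAD' a ha, b, hAD b hb, h.symm⟩
    · exact ⟨-a, hAD' a ha, -b, hAD' b hb, h.symm⟩
  have h0 : (0 : ZMod n) ∈ hpm n 2 A := by rw [hfull]; trivial
  have hcase : (∃ a ∈ A, a + a = 0) ∨ (∃ a ∈ A, ∃ b ∈ A, a ≠ b ∧ b = -a) := by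
    rcases two_sum h0 with ⟨a, ha, h | h⟩ | ⟨a, ha, b, hb, hab, h | h | h | h⟩
    · left; exact ⟨a, ha, h.symm⟩
    · left; refine ⟨a, ha, ?_⟩
      have := congrArg (fun t => -t) h
      simp only [neg_zero, neg_add, neg_neg] at this
      exact this.symm
    · right; exact ⟨a, ha, b, hb, hab, (neg_eq_of_add_eq_zero_right h.symm).symm⟩
    · exfalso; apply hab; rw [← sub_eq_add_neg] at h; exact sub_eq_zero.mp h.symm
    · exfalso; apply hab
      rw [add_comm, ← sub_eq_add_neg] at h; exact (sub_eq_zero.mp h.symm).symm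
    · right; refine ⟨a, ha, b, hb, hab, ?_⟩
      have := congrArg (fun t => -t) h
      simp only [neg_zero, neg_add, neg_neg] at this
      exact (neg_eq_of_add_eq_zero_right this.symm).symm
  have hn2 : 2 * m ^ 2 + 2 ≤ n + 2 * m := by omega
  rcases hcase with ⟨a, ha, haa⟩ | ⟨a, ha, b, hb, hab, hba⟩
  · -- an element of order at most two
    have hna : -a = a := neg_eq_of_add_eq_zero_left haa
    have hcard : D.card ≤ 2 * m - 1 := by
      have hsub : D ⊆ A ∪ (A.erase a).image (fun x => -x) := by
        intro x hx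
        rw [hDdef, Finset.mem_union, Finset.mem_image] at hx
        rcases hx with h | ⟨y, hy, rfl⟩
        · exact Finset.mem_union_left _ h
        · by_cases hya : y = a
          · rw [hya, hna]; exact Finset.mem_union_left _ ha
          · exact Finset.mem_union_right _ (Finset.mem_image.mpr
              ⟨y, Finset.mem_erase.mpr ⟨hya, hy⟩, rfl⟩)
      calc D.card ≤ (A ∪ (A.erase a).image (fun x => -x)).card := Finset.card_le_card hsub
        _ ≤ A.card + ((A.erase a).image (fun x => -x)).card := Finset.card_union_le _ _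
        _ ≤ A.card + (A.erase a).card := by
            exact Nat.add_le_add_left Finset.card_image_le _
        _ = 2 * m - 1 := by rw [Finset.card_erase_of_mem ha, hA]; omega
    have hk := key D hDneg hall ((D ×ˢ D).erase (a, a)) (by
      intro x hx y hy hxy
      refine Finset.mem_erase.mpr ⟨?_, Finset.mem_product.mpr ⟨hx, hy⟩⟩
      intro h
      have e1 : x = a := congrArg Prod.fst h
      have e2 : y = a := congrArg Prod.snd h
      exact hxy ⟨by rw [e1, e2], by rw [e1]; exact haa⟩)
    rw [Finset.card_erase_of_mem (Finset.mem_product.mpr ⟨hAD a ha, hAD a ha⟩),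
      Finset.card_product] at hk
    obtain ⟨k, rfl⟩ : ∃ k, m = k + 1 := ⟨m - 1, by omega⟩
    have h7 : D.card ≤ 2 * k + 1 := by omega
    have h8 : D.card * D.card ≤ (2 * k + 1) * (2 * k + 1) := Nat.mul_le_mul h7 h7
    have h9 : (2 * k + 1) * (2 * k + 1) = 4 * (k * k) + 4 * k + 1 := by ring
    have h10 : 2 * (k + 1) ^ 2 = 2 * (k * k) + 4 * k + 2 := by ring
    rw [h10] at hn2
    omega
  · -- two opposite elements
    have hcard : D.card ≤ 2 * m - 2 := by
      have hsub : D ⊆ A ∪ ((A.erase a).erase b).image (fun x => -x) := by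
        intro x hx
        rw [hDdef, Finset.mem_union, Finset.mem_image] at hx
        rcases hx with h | ⟨y, hy, rfl⟩
        · exact Finset.mem_union_left _ h
        · by_cases hya : y = a
          · rw [hya, ← hba]; exact Finset.mem_union_left _ hb
          · by_cases hyb : y = b
            · rw [hyb, hba, neg_neg]; exact Finset.mem_union_left _ ha
            · exact Finset.mem_union_right _ (Finset.mem_image.mpr
                ⟨y, Finset.mem_erase.mpr ⟨hyb, Finset.mem_erase.mpr ⟨hya, hy⟩⟩, rfl⟩)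
      calc D.card ≤ (A ∪ ((A.erase a).erase b).image (fun x => -x)).card :=
            Finset.card_le_card hsub
        _ ≤ A.card + (((A.erase a).erase b).image (fun x => -x)).card :=
            Finset.card_union_le _ _
        _ ≤ A.card + ((A.erase a).erase b).card := by
            exact Nat.add_le_add_left Finset.card_image_le _
        _ = 2 * m - 2 := by
            rw [Finset.card_erase_of_mem (Finset.mem_erase.mpr ⟨hab.symm, hb⟩),
              Finset.card_erase_of_mem ha, hA]; omega
    have hk := key D hDneg hall (D ×ˢ D) (by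
      intro x hx y hy _
      exact Finset.mem_product.mpr ⟨hx, hy⟩)
    rw [Finset.card_product] at hk
    obtain ⟨k, rfl⟩ : ∃ k, m = k + 1 := ⟨m - 1, by omega⟩
    have h7 : D.card ≤ 2 * k := by omega
    have h8 : D.card * D.card ≤ (2 * k) * (2 * k) := Nat.mul_le_mul h7 h7
    have h9 : (2 * k) * (2 * k) = 4 * (k * k) := by ring
    have h10 : 2 * (k + 1) ^ 2 = 2 * (k * k) + 4 * k + 2 := by ring
    rw [h10] at hn2
    omega

theorem family {n m : ℕ} (hm : 2 ≤ m) (hn : 2 * m ^ 2 - 2 * m + 2 ≤ n) (hn' : n ≤ 2 * m ^ 2) :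
    m ≤ n ∧ nu n m 2 < min n (c 2 m) := by
  classical
  have hmn : m ≤ n := by
    have : m * 1 ≤ m * (m - 1) := Nat.mul_le_mul_left m (by omega)
    obtain ⟨k, rfl⟩ : ∃ k, m = k + 2 := ⟨m - 2, by omega⟩
    have h1 : 2 * (k + 2) ^ 2 = 2 * (k * k) + 8 * k + 8 := by ring
    rw [h1] at hn
    omega
  refine ⟨hmn, ?_⟩
  rw [c_two m hm, min_eq_left hn']
  haveI : NeZero n := ⟨by omega⟩
  have hb : ∀ k ∈ {k | ∃ A : Finset (ZMod n), A.card = m ∧ k = (hpm n 2 A).ncard},
      k ≤ n - 1 := by
    rintro k ⟨A, hA, rfl⟩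
    have h1 := not_all hm hn A hA
    have h2 : (hpm n 2 A).ncard < (Set.univ : Set (ZMod n)).ncard :=
      Set.ncard_lt_ncard (Set.ssubset_univ_iff.mpr h1) (Set.toFinite _)
    rw [Set.ncard_univ, Nat.card_eq_fintype_card, ZMod.card] at h2
    omega
  have hle : nu n m 2 ≤ n - 1 := by
    unfold nu
    rcases Set.eq_empty_or_nonempty
      {k | ∃ A : Finset (ZMod n), A.card = m ∧ k = (hpm n 2 A).ncard} with h | h
    · rw [h]; simp
    · exact csSup_le h hb
  omega

section General

open Classical

variable {n : ℕ} [NeZero n]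

/-- `hpm` as a finset. -/
noncomputable def HF (h : ℕ) (A : Finset (ZMod n)) : Finset (ZMod n) :=
  Finset.univ.filter (fun x => x ∈ hpm n h A)

/-- Size plus number of elements equal to their negatives. -/
noncomputable def f (X : Finset (ZMod n)) : ℕ := X.card + (X.filter (fun x => x = -x)).card

theorem f_mono {X Y : Finset (ZMod n)} (h : X ⊆ Y) : f X ≤ f Y := by
  unfold f
  exact Nat.add_le_add (Finset.card_le_card h)
    (Finset.card_le_card (Finset.filter_subset_filter _ h))

theorem f_union (X Y : Finset (ZMod n)) : f (X ∪ Y) ≤ f X + f Y := by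
  unfold f
  rw [Finset.filter_union]
  have h1 := Finset.card_union_le X Y
  have h2 := Finset.card_union_le (X.filter (fun x => x = -x)) (Y.filter (fun x => x = -x))
  omega

theorem f_biUnion (s : Finset ℕ) (g : ℕ → Finset (ZMod n)) :
    f (s.biUnion g) ≤ ∑ r ∈ s, f (g r) := by
  induction s using Finset.induction_on with
  | empty => simp [f]
  | insert a s ha ih =>
    rw [Finset.biUnion_insert, Finset.sum_insert ha]
    exact le_trans (f_union _ _) (Nat.add_le_add_left ih _)

theorem f_sym (T : Finset (ZMod n)) : f (T ∪ T.image (fun x => -x)) ≤ 2 * T.card := by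
  unfold f
  have h1 : ((T ∪ T.image (fun x => -x)).filter (fun x => x = -x)).card
      ≤ (T ∩ T.image (fun x => -x)).card := by
    apply Finset.card_le_card
    intro x hx
    rw [Finset.mem_filter, Finset.mem_union, Finset.mem_image] at hx
    rw [Finset.mem_inter, Finset.mem_image]
    obtain ⟨hx1, hx2⟩ := hx
    rcases hx1 with h | ⟨y, hy, hyx⟩
    · exact ⟨h, x, h, hx2.symm⟩
    · have hxy : x = y := by rw [hx2, ← hyx, neg_neg]
      rw [hxy]
      exact ⟨hy, y, hy, by rw [← hxy]; exact hx2.symm⟩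
  have h2 := Finset.card_union_add_card_inter T (T.image (fun x => -x))
  have h3 : (T.image (fun x => -x)).card ≤ T.card := Finset.card_image_le
  omega

theorem hpm_neg {h : ℕ} {A : Finset (ZMod n)} {x : ZMod n} (hx : x ∈ hpm n h A) :
    -x ∈ hpm n h A := by
  obtain ⟨l, hl, rfl⟩ := hx
  refine ⟨fun a => - l a, ?_, ?_⟩
  · simpa [abs_neg] using hl
  · simp [Finset.sum_neg_distrib]

theorem step (h : ℕ) (A : Finset (ZMod n)) (a : ZMod n) (ha : a ∉ A) :
    HF h (insert a A) ⊆ HF h A ∪ (Finset.range h).biUnion (fun r =>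
      ((HF r A).image (fun y => (h - r) • a + y)) ∪
        (((HF r A).image (fun y => (h - r) • a + y)).image (fun x => -x))) := by
  intro x hx
  have hx' : x ∈ hpm n h (insert a A) := (Finset.mem_filter.mp hx).2
  obtain ⟨l, hl, hxe⟩ := hx'
  rw [Finset.sum_insert ha] at hl hxe
  have hnn : 0 ≤ ∑ b ∈ A, |l b| := Finset.sum_nonneg (fun _ _ => abs_nonneg _)
  have habs : |l a| = ((l a).natAbs : ℤ) := (Int.natCast_natAbs (l a)).symm
  have hk : (l a).natAbs ≤ h := by omega
  have hy : ∑ b ∈ A, l b • b ∈ hpm n (h - (l a).natAbs) A :=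
    ⟨l, by omega, rfl⟩
  by_cases h0 : l a = 0
  · apply Finset.mem_union_left
    refine Finset.mem_filter.mpr ⟨Finset.mem_univ _, ?_⟩
    rw [h0] at hy hxe
    simp only [Int.natAbs_zero, Nat.sub_zero] at hy
    rw [hxe]; simpa using hy
  · apply Finset.mem_union_right
    have hkpos : 0 < (l a).natAbs := Int.natAbs_pos.mpr h0
    refine Finset.mem_biUnion.mpr ⟨h - (l a).natAbs, Finset.mem_range.mpr (by omega), ?_⟩
    have hr : h - (h - (l a).natAbs) = (l a).natAbs := by omega
    rw [hr]
    rcases Int.natAbs_eq (l a) with hp | hp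
    · apply Finset.mem_union_left
      refine Finset.mem_image.mpr ⟨∑ b ∈ A, l b • b,
        Finset.mem_filter.mpr ⟨Finset.mem_univ _, hy⟩, ?_⟩
      rw [hxe]
      congr 1
      conv_rhs => rw [hp]
      rw [natCast_zsmul]
    · apply Finset.mem_union_right
      refine Finset.mem_image.mpr ⟨(l a).natAbs • a + -(∑ b ∈ A, l b • b),
        Finset.mem_image.mpr ⟨-(∑ b ∈ A, l b • b),
          Finset.mem_filter.mpr ⟨Finset.mem_univ _, hpm_neg hy⟩, rfl⟩, ?_⟩
      rw [hxe, neg_add, neg_neg]
      congr 1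
      conv_rhs => rw [hp]
      rw [neg_zsmul, natCast_zsmul]

theorem bound (A : Finset (ZMod n)) :
    (∀ h, (HF h A).card ≤ w A.card h) ∧ (∀ h, 1 ≤ h → f (HF h A) ≤ w A.card h) := by
  have hzero : ∀ B : Finset (ZMod n), (HF 0 B).card ≤ 1 := by
    intro B
    rw [Finset.card_le_one]
    have h0 : ∀ x ∈ HF 0 B, x = 0 := by
      intro x hx
      obtain ⟨l, hl, hxe⟩ := (Finset.mem_filter.mp hx).2
      rw [hxe]
      apply Finset.sum_eq_zero
      intro b hb
      have := (Finset.sum_eq_zero_iff_of_nonneg (fun x _ => abs_nonneg (l x))).mp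
        (by exact_mod_cast hl) b hb
      rw [abs_eq_zero.mp this]; simp
    intro x hx y hy
    rw [h0 x hx, h0 y hy]
  suffices hmain : ∀ h, 1 ≤ h → f (HF h A) ≤ w A.card h by
    refine ⟨fun h => ?_, hmain⟩
    rcases Nat.eq_zero_or_pos h with rfl | hpos
    · rw [w_zero]; exact hzero A
    · exact le_trans (by unfold f; omega) (hmain h hpos)
  induction A using Finset.induction_on with
  | empty =>
    intro h hpos
    have : HF h (∅ : Finset (ZMod n)) = ∅ := by
      apply Finset.eq_empty_of_forall_notMem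
      intro x hx
      obtain ⟨l, hl, _⟩ := (Finset.mem_filter.mp hx).2
      simp at hl
      omega
    rw [this]; simp [f]
  | insert a A ha ih =>
    intro h hpos
    have hc : ∀ r, (HF r A).card ≤ w A.card r := by
      intro r
      rcases Nat.eq_zero_or_pos r with rfl | hr
      · rw [w_zero]; exact hzero A
      · exact le_trans (by unfold f; omega) (ih r hr)
    rw [Finset.card_insert_of_notMem ha]
    calc f (HF h (insert a A))
        ≤ f (HF h A ∪ (Finset.range h).biUnion (fun r =>
            ((HF r A).image (fun y => (h - r) • a + y)) ∪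
              (((HF r A).image (fun y => (h - r) • a + y)).image (fun x => -x)))) :=
          f_mono (step h A a ha)
      _ ≤ f (HF h A) + ∑ r ∈ Finset.range h,
            f (((HF r A).image (fun y => (h - r) • a + y)) ∪
              (((HF r A).image (fun y => (h - r) • a + y)).image (fun x => -x))) :=
          le_trans (f_union _ _) (Nat.add_le_add_left (f_biUnion _ _) _)
      _ ≤ w A.card h + ∑ r ∈ Finset.range h, 2 * w A.card r := by
          apply Nat.add_le_add (ih h hpos)
          apply Finset.sum_le_sum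
          intro r _
          refine le_trans (f_sym _) ?_
          apply Nat.mul_le_mul_left
          exact le_trans Finset.card_image_le (hc r)
      _ = w (A.card + 1) h := by
          simp only [w]; rw [Finset.mul_sum]

/-- If `h_± A` is all of `ℤ/n`, then `n < c(h,m)`. -/
theorem all_lt {h : ℕ} (hh : 1 ≤ h) (A : Finset (ZMod n)) (hfull : hpm n h A = Set.univ) :
    n < c h A.card := by
  have h1 := (bound A).2 h hh
  have h2 : HF h A = Finset.univ := by
    ext x; simp [HF, hfull]
  rw [h2] at h1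
  unfold f at h1
  rw [Finset.card_univ, ZMod.card] at h1
  have h3 : 0 < ((Finset.univ : Finset (ZMod n)).filter (fun x => x = -x)).card :=
    Finset.card_pos.mpr ⟨0, by simp⟩
  obtain ⟨k, rfl⟩ : ∃ k, h = k + 1 := ⟨h - 1, by omega⟩
  rw [c_eq_w]
  omega

end General

theorem two_mul_le_c {h m : ℕ} (hh : 1 ≤ h) : 2 * m ≤ c h m := by
  obtain ⟨k, rfl⟩ : ∃ k, h = k + 1 := ⟨h - 1, by omega⟩
  rw [c_range]
  have := Finset.single_le_sum (f := fun j => 2 ^ (j + 1) * m.choose (j + 1) * k.choose j)
    (fun _ _ => Nat.zero_le _) (Finset.mem_range.mpr (Nat.succ_pos k))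
  simpa using this

theorem general {h m : ℕ} (hh : 1 ≤ h) (hm : 1 ≤ m) :
    m ≤ c h m ∧ nu (c h m) m h < min (c h m) (c h m) := by
  have h2 := two_mul_le_c (m := m) hh
  refine ⟨by omega, ?_⟩
  rw [min_self]
  set n := c h m with hn
  haveI : NeZero n := ⟨by omega⟩
  have hb : ∀ k ∈ {k | ∃ A : Finset (ZMod n), A.card = m ∧ k = (hpm n h A).ncard},
      k ≤ n - 1 := by
    rintro k ⟨A, hA, rfl⟩
    have h1 : hpm n h A ≠ Set.univ := by
      intro hf
      have := all_lt hh A hf
      rw [hA, ← hn] at this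
      exact lt_irrefl _ this
    have h2 : (hpm n h A).ncard < (Set.univ : Set (ZMod n)).ncard :=
      Set.ncard_lt_ncard (Set.ssubset_univ_iff.mpr h1) (Set.toFinite _)
    rw [Set.ncard_univ, Nat.card_eq_fintype_card, ZMod.card] at h2
    omega
  have hle : nu n m h ≤ n - 1 := by
    unfold nu
    rcases Set.eq_empty_or_nonempty
      {k | ∃ A : Finset (ZMod n), A.card = m ∧ k = (hpm n h A).ncard} with h' | h'
    · rw [h']; simp
    · exact csSup_le h' hb
  omega

/-- For odd `m` and `n = 2m²+2` no `m`-subset has `2m²` distinct signed sums. -/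
theorem odd_case {n m : ℕ} (hm : 2 ≤ m) (hodd : Odd m) (hn : n = 2 * m ^ 2 + 2)
    (A : Finset (ZMod n)) (hA : A.card = m) : (hpm n 2 A).ncard < 2 * m ^ 2 := by
  classical
  by_contra hge
  push Not at hge
  haveI : NeZero n := ⟨by omega⟩
  have hset : hpm n 2 A = ((HF 2 A : Finset (ZMod n)) : Set (ZMod n)) := by
    ext x; simp [HF]
  rw [hset, Set.ncard_coe_finset] at hge
  have hb := (bound A).2 2 (by norm_num)
  rw [hA, ← c_eq_w m 1, c_two m hm] at hb
  unfold f at hb
  have hz : ((HF 2 A).filter (fun x => x = -x)).card = 0 := by omega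
  have hself : ∀ x : ZMod n, x = -x → x ∉ HF 2 A := by
    intro x hx hmem
    have : x ∈ (HF 2 A).filter (fun x => x = -x) := Finset.mem_filter.mpr ⟨hmem, hx⟩
    rw [Finset.card_eq_zero.mp hz] at this
    exact absurd this (Finset.notMem_empty x)
  have h2n : 2 ∣ n := ⟨m ^ 2 + 1, by rw [hn]; ring⟩
  let π : ZMod n →+* ZMod 2 := ZMod.castHom h2n (ZMod 2)
  have hneg : ∀ y : ZMod 2, -y = y := by decide
  have htwo : ∀ y : ZMod 2, y + y = 0 := by decide
  -- the element of order two
  set e : ZMod n := ((m ^ 2 + 1 : ℕ) : ZMod n) with he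
  have hee : e = -e := by
    rw [eq_neg_iff_add_eq_zero, he, ← Nat.cast_add]
    have : m ^ 2 + 1 + (m ^ 2 + 1) = n := by rw [hn]; ring
    rw [this]; exact ZMod.natCast_self n
  have hene : e ≠ 0 := by
    rw [he, Ne, ZMod.natCast_eq_zero_iff]
    intro hd
    have := Nat.le_of_dvd (by positivity) hd
    omega
  have hπe : π e = 0 := by
    rw [he, map_natCast, ZMod.natCast_eq_zero_iff]
    obtain ⟨k, hk⟩ := hodd
    exact ⟨2 * k ^ 2 + 2 * k + 1, by rw [hk]; ring⟩
  let O : Finset (ZMod n) := Finset.univ.filter (fun x => π x = 1)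
  have hOcard : m ^ 2 + 1 ≤ O.card := by
    have h1 : (Finset.univ.filter (fun x : ZMod n => ¬ π x = 1)).card ≤ O.card := by
      apply Finset.card_le_card_of_injOn (fun x => x + 1)
      · intro x hx
        have hx' : ¬ π x = 1 := by simpa using hx
        have hx0 : π x = 0 := by
          have : ∀ y : ZMod 2, ¬ y = 1 → y = 0 := by decide
          exact this _ hx'
        have : π (x + 1) = 1 := by rw [map_add, hx0, map_one, zero_add]
        simpa [O] using this
      · intro x _ y _ h
        exact add_right_cancel h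
    have h2 := Finset.card_filter_add_card_filter_not (s := (Finset.univ : Finset (ZMod n)))
      (fun x => π x = 1)
    rw [Finset.card_univ, ZMod.card] at h2
    have h3 : (Finset.univ.filter (fun x : ZMod n => π x = 1)).card = O.card := rfl
    rw [h3] at h2
    omega
  have hOsub : ∀ x ∈ O, x ∈ HF 2 A := by
    intro x hx
    by_contra hxn
    have hπx : π x = 1 := (Finset.mem_filter.mp hx).2
    have hx0 : x ≠ 0 := by
      rintro rfl
      rw [map_zero] at hπx
      exact absurd hπx (by decide)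
    have hxe : x ≠ e := by
      rintro rfl
      rw [hπe] at hπx
      exact absurd hπx (by decide)
    have hsub : HF 2 A ⊆ ((Finset.univ.erase x).erase (0 : ZMod n)).erase e := by
      intro y hy
      refine Finset.mem_erase.mpr ⟨?_, Finset.mem_erase.mpr ⟨?_, Finset.mem_erase.mpr
        ⟨?_, Finset.mem_univ _⟩⟩⟩
      · rintro rfl; exact hself _ hee hy
      · rintro rfl; exact hself 0 (by simp) hy
      · rintro rfl; exact hxn hy
    have hcard := Finset.card_le_card hsub
    rw [Finset.card_erase_of_mem (Finset.mem_erase.mpr ⟨hene, Finset.mem_erase.mpr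
        ⟨hxe.symm, Finset.mem_univ _⟩⟩),
      Finset.card_erase_of_mem (Finset.mem_erase.mpr ⟨hx0.symm, Finset.mem_univ _⟩),
      Finset.card_erase_of_mem (Finset.mem_univ _), Finset.card_univ, ZMod.card] at hcard
    have hm2 : 0 < m ^ 2 := by positivity
    omega
  let P : Finset (ZMod n) := A.filter (fun x => π x = 1)
  let Q : Finset (ZMod n) := A.filter (fun x => ¬ π x = 1)
  have hPQ : P.card + Q.card = m := by
    rw [← hA]; exact Finset.card_filter_add_card_filter_not _
  let T : Finset (ZMod n) := ((P ×ˢ Q) ×ˢ (Finset.univ : Finset (Bool × Bool))).image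
    (fun t => (if t.2.1 then t.1.1 else -t.1.1) + (if t.2.2 then t.1.2 else -t.1.2))
  have hOT : O ⊆ T := by
    intro x hx
    have hπx : π x = 1 := (Finset.mem_filter.mp hx).2
    have hxm : x ∈ hpm n 2 A := (Finset.mem_filter.mp (hOsub x hx)).2
    have key2 : ∀ a ∈ A, ∀ b ∈ A, ∀ s t : Bool,
        x = (if s then a else -a) + (if t then b else -b) → x ∈ T := by
      intro a ha b hb s t hxe
      have hs : ∀ (u : Bool) (y : ZMod n), π (if u then y else -y) = π y := by
        intro u y; cases u
        · simp [hneg]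
        · simp
      have hsum : π a + π b = 1 := by
        rw [← hs s a, ← hs t b, ← map_add, ← hxe]; exact hπx
      by_cases hpa : π a = 1
      · have hpb : ¬ π b = 1 := by
          intro hpb; rw [hpa, hpb] at hsum; exact absurd hsum (by decide)
        refine Finset.mem_image.mpr ⟨((a, b), (s, t)), ?_, hxe.symm⟩
        refine Finset.mem_product.mpr ⟨Finset.mem_product.mpr ⟨?_, ?_⟩, Finset.mem_univ _⟩
        · exact Finset.mem_filter.mpr ⟨ha, hpa⟩
        · exact Finset.mem_filter.mpr ⟨hb, hpb⟩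
      · have hpb : π b = 1 := by
          have : ∀ y z : ZMod 2, y + z = 1 → ¬ y = 1 → z = 1 := by decide
          exact this _ _ hsum hpa
        refine Finset.mem_image.mpr ⟨((b, a), (t, s)), ?_, by rw [hxe]; exact add_comm _ _⟩
        refine Finset.mem_product.mpr ⟨Finset.mem_product.mpr ⟨?_, ?_⟩, Finset.mem_univ _⟩
        · exact Finset.mem_filter.mpr ⟨hb, hpb⟩
        · exact Finset.mem_filter.mpr ⟨ha, hpa⟩
    rcases two_sum hxm with ⟨a, ha, h | h⟩ | ⟨a, ha, b, hb, _, h | h | h | h⟩
    · exact key2 a ha a ha true true (by simpa using h)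
    · exact key2 a ha a ha false false (by simpa using h)
    · exact key2 a ha b hb true true (by simpa using h)
    · exact key2 a ha b hb true false (by simpa using h)
    · exact key2 a ha b hb false true (by simpa using h)
    · exact key2 a ha b hb false false (by simpa using h)
  have hT : T.card ≤ P.card * Q.card * 4 := by
    refine le_trans Finset.card_image_le ?_
    rw [Finset.card_product, Finset.card_product]
    simp
  have h4 : P.card * Q.card * 4 ≤ m ^ 2 := by
    rw [← hPQ]
    have h6 : (P.card * Q.card * 4 : ℤ) ≤ ((P.card : ℤ) + Q.card) ^ 2 := by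
      nlinarith [sq_nonneg ((P.card : ℤ) - Q.card)]
    exact_mod_cast h6
  have h5 := Finset.card_le_card hOT
  omega

theorem odd_family {m : ℕ} (hm : 2 ≤ m) (hodd : Odd m) :
    m ≤ 2 * m ^ 2 + 2 ∧ nu (2 * m ^ 2 + 2) m 2 < min (2 * m ^ 2 + 2) (c 2 m) := by
  classical
  have hpos : 0 < 2 * m ^ 2 := by positivity
  refine ⟨by nlinarith, ?_⟩
  rw [c_two m hm, min_eq_right (by omega)]
  have hb : ∀ k ∈ {k | ∃ A : Finset (ZMod (2 * m ^ 2 + 2)), A.card = m ∧
      k = (hpm (2 * m ^ 2 + 2) 2 A).ncard}, k ≤ 2 * m ^ 2 - 1 := by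
    rintro k ⟨A, hA, rfl⟩
    have := odd_case hm hodd rfl A hA
    omega
  have hle : nu (2 * m ^ 2 + 2) m 2 ≤ 2 * m ^ 2 - 1 := by
    unfold nu
    rcases Set.eq_empty_or_nonempty
      {k | ∃ A : Finset (ZMod (2 * m ^ 2 + 2)), A.card = m ∧
        k = (hpm (2 * m ^ 2 + 2) 2 A).ncard} with h' | h'
    · rw [h']; simp
    · exact csSup_le h' hb
  omega

/-- The bound `ν_±(ℤ/n, m, h) ≤ min (n, c(h,m))` is strict for every `m, h ≥ 2` when
`n = c(h,m)`, and, for `h = 2`, when `2m²-2m+2 ≤ n ≤ 2m²` or when `m` is odd and `n = 2m²+2`. -/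
theorem result (n m h : ℕ) (hm : 2 ≤ m) (hh : 2 ≤ h)
    (hn : n = c h m ∨
      (h = 2 ∧ ((2 * m ^ 2 - 2 * m + 2 ≤ n ∧ n ≤ 2 * m ^ 2) ∨ (Odd m ∧ n = 2 * m ^ 2 + 2)))) :
    m ≤ n ∧ nu n m h < min n (c h m) := by
  rcases hn with rfl | ⟨rfl, ⟨h1, h2⟩ | ⟨ho, rfl⟩⟩
  · exact general (by omega) (by omega)
  · exact family hm h1 h2
  · exact odd_family hm ho

end Pool.Agent.Results.MP_c862d8_co.TwoFoldFamily
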